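import Mathlib

/-!
# Jones families among `n`-inseparable almost disjoint families

Case `𝔟 > ω₁`: every AD family is Jones (a countable subfamily can be separated from any
subfamily of size `ℵ₁` with the help of a dominating function).

Case `𝔟 = ω₁`: from an unbounded family of size `ℵ₁` we build strictly increasing functions
`x γ : ℕ → ℕ` for `γ < ω₁`, with injections `e γ` of `{β | β < γ}` into `ℕ`, such that
`x β (i + 1) ≤ x γ i` whenever `β < γ` and `e γ β ≤ i`. Let `c γ v` be the least `i` with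
`v ≤ x γ i`, let `F v γ = {β < γ | e γ β < c γ v}` and let `U v γ` be the union of `F v γ` and of
the sets `F v α` for `α ∈ F v γ`. The points are pairs `(v, K)` with `K ⊆ {0, …, v}`, and
`a γ` is the set of all `(v, K)` such that `c γ v ∈ K` and `c β v ∉ K` for all `β ∈ U v γ`.
The family of the sets `a γ` is AD, Jones, and `n`-inseparable for every `n`.
-/

namespace Pool.Agent.Results.MP_db1bd0_lc.JonesInseparable

open Set Cardinal Filter

/-- `A` is almost contained in `B`. -/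
def AlmostSub (A B : Set ℕ) : Prop := (A \ B).Finite

/-- `A` and `B` are almost disjoint. -/
def AlmostDisj (A B : Set ℕ) : Prop := (A ∩ B).Finite

/-- AD families: families of infinite, pairwise almost disjoint subsets of `ℕ`. -/
def IsAD (𝒜 : Set (Set ℕ)) : Prop :=
  (∀ A ∈ 𝒜, A.Infinite) ∧ ∀ A ∈ 𝒜, ∀ B ∈ 𝒜, A ≠ B → AlmostDisj A B

/-- A system of functions (the recursive construction). -/
structure Sys (W : Type) [LinearOrder W] where
  x : W → ℕ → ℕ
  e : W → W → ℕ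
  x_mono : ∀ γ, StrictMono (x γ)
  e_inj : ∀ γ, InjOn (e γ) (Iio γ)
  x_rec : ∀ β γ i, β < γ → e γ β ≤ i → x β (i + 1) ≤ x γ i
  unb : ∀ S : Set W, ¬ S.Countable → ∀ h : ℕ → ℕ, ∃ γ ∈ S, ∃ i, h i < x γ i

/-- coding of the points -/
noncomputable def φ : (ℕ × Finset ℕ) ≃ ℕ := Denumerable.eqv _

/-- first coordinate of a point -/
noncomputable def V (p : ℕ) : ℕ := (φ.symm p).1
/-- second coordinate of a point -/
noncomputable def K (p : ℕ) : Finset ℕ := (φ.symm p).2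

theorem fin_of_bdd {S : Set ℕ} (M : ℕ) (h1 : ∀ p ∈ S, K p ⊆ Finset.range (V p + 1))
    (h2 : ∀ p ∈ S, V p ≤ M) : S.Finite := by
  apply Set.Finite.subset (Set.Finite.image φ
    ((Finset.range (M + 1)) ×ˢ (Finset.range (M + 1)).powerset).finite_toSet)
  intro p hp
  refine ⟨φ.symm p, ?_, φ.apply_symm_apply p⟩
  rw [Finset.mem_coe, Finset.mem_product, Finset.mem_powerset, Finset.mem_range]
  have := h2 p hp
  refine ⟨?_, (h1 p hp).trans ?_⟩
  · change V p < M + 1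
    omega
  · intro a ha
    rw [Finset.mem_range] at *
    omega

namespace Sys

variable {W : Type} [LinearOrder W] (s : Sys W)

theorem ex_le (γ : W) (v : ℕ) : ∃ i, v ≤ s.x γ i := ⟨v, (s.x_mono γ).le_apply⟩

open Classical in
/-- the counting function of `x γ` -/
noncomputable def c (γ : W) (v : ℕ) : ℕ := Nat.find (s.ex_le γ v)

theorem c_le_iff {γ : W} {v i : ℕ} : s.c γ v ≤ i ↔ v ≤ s.x γ i := by
  classical
  constructor
  · intro h
    exact (Nat.find_spec (s.ex_le γ v)).trans ((s.x_mono γ).monotone h)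
  · intro h
    exact Nat.find_min' _ h

theorem c_mono (γ : W) : Monotone (s.c γ) := fun _ _ h =>
  s.c_le_iff.2 (h.trans (s.c_le_iff.1 le_rfl))

theorem c_le (γ : W) (v : ℕ) : s.c γ v ≤ v := s.c_le_iff.2 (s.x_mono γ).le_apply

/-- the elements below `γ` which `γ` takes into account at `v` -/
def F (v : ℕ) (γ : W) : Set W := {β | β < γ ∧ s.e γ β < s.c γ v}

theorem F_lt {v : ℕ} {γ β : W} (h : β ∈ s.F v γ) : s.c γ v < s.c β v := by
  obtain ⟨h1, h2⟩ := h
  by_contra hc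
  push Not at hc
  rw [c_le_iff] at hc
  obtain ⟨k, hk⟩ : ∃ k, s.c γ v = k + 1 := Nat.exists_eq_succ_of_ne_zero (by omega)
  have h3 : s.x β (k + 1) ≤ s.x γ k := s.x_rec β γ k h1 (by omega)
  rw [hk] at hc
  have h4 : s.c γ v ≤ k := s.c_le_iff.2 (hc.trans h3)
  omega

theorem not_F {v : ℕ} {γ β : W} (h : β < γ) (h' : β ∉ s.F v γ) : v ≤ s.x γ (s.e γ β) := by
  rw [← c_le_iff]
  by_contra hc
  exact h' ⟨h, not_le.1 hc⟩

/-- two levels of `F` -/
def U (v : ℕ) (γ : W) : Set W := s.F v γ ∪ {β | ∃ α ∈ s.F v γ, β ∈ s.F v α}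

theorem U_lt {v : ℕ} {γ β : W} (h : β ∈ s.U v γ) : s.c γ v < s.c β v := by
  rcases h with h | ⟨α, h1, h2⟩
  · exact s.F_lt h
  · exact (s.F_lt h1).trans (s.F_lt h2)

/-- the almost disjoint sets -/
def a (γ : W) : Set ℕ := {p | K p ⊆ Finset.range (V p + 1) ∧ s.c γ (V p) ∈ K p ∧
  ∀ β ∈ s.U (V p) γ, s.c β (V p) ∉ K p}

theorem mem_a_iff {γ : W} {v : ℕ} {k : Finset ℕ} : φ (v, k) ∈ s.a γ ↔
    k ⊆ Finset.range (v + 1) ∧ s.c γ v ∈ k ∧ ∀ β ∈ s.U v γ, s.c β v ∉ k := by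
  simp [a, V, K]

theorem a_infinite (γ : W) : (s.a γ).Infinite := by
  apply Set.infinite_of_injective_forall_mem (f := fun v : ℕ => φ (v, {s.c γ v}))
  · intro v w h
    simpa using (Prod.ext_iff.1 (φ.injective h)).1
  · intro v
    rw [mem_a_iff]
    refine ⟨?_, by simp, ?_⟩
    · have := s.c_le γ v
      intro t ht
      simp at ht ⊢
      omega
    · intro β hβ
      have := s.U_lt hβ
      simp
      omega

theorem a_excl {p : ℕ} {γ β : W} (h : β ∈ s.F (V p) γ) (h1 : p ∈ s.a β) : p ∉ s.a γ := by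
  intro h2
  exact h2.2.2 β (Or.inl h) h1.2.1

theorem a_excl2 {p : ℕ} {γ α β : W} (h : β ∈ s.F (V p) α) (h' : α ∈ s.F (V p) γ)
    (h1 : p ∈ s.a β) : p ∉ s.a γ := by
  intro h2
  exact h2.2.2 β (Or.inr ⟨α, h', h⟩) h1.2.1

theorem a_disj_lt {β γ : W} (h : β < γ) : (s.a β ∩ s.a γ).Finite := by
  apply fin_of_bdd (s.x γ (s.e γ β))
  · intro p hp
    exact hp.1.1
  · intro p hp
    apply s.not_F h
    intro hF
    exact s.a_excl hF hp.1 hp.2

theorem a_disj {β γ : W} (h : β ≠ γ) : (s.a β ∩ s.a γ).Finite := by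
  rcases lt_or_gt_of_ne h with h | h
  · exact s.a_disj_lt h
  · rw [Set.inter_comm]
    exact s.a_disj_lt h

theorem a_inj : Function.Injective s.a := by
  intro β γ h
  by_contra hne
  have := s.a_disj hne
  rw [h, Set.inter_self] at this
  exact s.a_infinite γ this

/-- the separating set for `{a β : β < α}` against the rest -/
def C (α : W) : Set ℕ := {p | ∃ β, β ∈ s.F (V p) α ∧ p ∈ s.a β}

theorem C_sub {α β : W} (h : β < α) : AlmostSub (s.a β) (s.C α) := by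
  apply fin_of_bdd (s.x α (s.e α β))
  · intro p hp
    exact hp.1.1
  · intro p hp
    apply s.not_F h
    intro hF
    exact hp.2 ⟨β, hF, hp.1⟩

theorem C_disj {α γ : W} (h : α ≤ γ) : (s.C α ∩ s.a γ).Finite := by
  rcases h.eq_or_lt with rfl | h
  · have hE : s.C α ∩ s.a α = ∅ := by
      ext p
      simp only [mem_inter_iff, mem_empty_iff_false, iff_false, not_and]
      rintro ⟨β, h1, h2⟩
      exact s.a_excl h1 h2
    rw [hE]
    exact Set.finite_empty
  · apply fin_of_bdd (s.x γ (s.e γ α))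
    · intro p hp
      exact hp.2.1
    · rintro p ⟨⟨β, h1, h2⟩, h3⟩
      apply s.not_F h
      intro hF
      exact s.a_excl2 h1 hF h2 h3

/-- The family. -/
def fam : Set (Set ℕ) := Set.range s.a

theorem fam_AD : IsAD s.fam := by
  refine ⟨?_, ?_⟩
  · rintro _ ⟨γ, rfl⟩
    exact s.a_infinite γ
  · rintro _ ⟨β, rfl⟩ _ ⟨γ, rfl⟩ h
    apply s.a_disj
    rintro rfl
    exact h rfl

end Sys

/-- Two disjoint countable subfamilies of an AD family can be separated. -/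
theorem sep_countable {𝒜 : Set (Set ℕ)} (h𝒜 : IsAD 𝒜) {L R : Set (Set ℕ)} (hL : L ⊆ 𝒜)
    (hR : R ⊆ 𝒜) (hLR : Disjoint L R) (hLc : L.Countable) (hRc : R.Countable) :
    ∃ D : Set ℕ, (∀ A ∈ L, AlmostSub A D) ∧ ∀ B ∈ R, AlmostDisj D B := by
  obtain ⟨f, hf⟩ := Set.countable_iff_exists_injOn.1 (hLc.union hRc)
  have hne : ∀ A ∈ L, ∀ B ∈ R, A ≠ B := by
    rintro A hA B hB rfl
    exact Set.disjoint_left.1 hLR hA hB
  refine ⟨{m | ∃ A ∈ L, m ∈ A ∧ ∀ B ∈ R, f B < f A → m ∉ B}, ?_, ?_⟩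
  · intro A hA
    have hfin : {B | B ∈ R ∧ f B < f A}.Finite := by
      apply Set.Finite.of_finite_image (f := f)
      · exact (Set.finite_Iio (f A)).subset (by rintro _ ⟨B, hB, rfl⟩; exact hB.2)
      · intro B hB B' hB' h
        exact hf (Or.inr hB.1) (Or.inr hB'.1) h
    apply (hfin.biUnion (t := fun B => A ∩ B) (fun B hB =>
      h𝒜.2 A (hL hA) B (hR hB.1) (hne A hA B hB.1))).subset
    rintro m ⟨h1, h2⟩
    by_contra h3
    apply h2
    refine ⟨A, hA, h1, ?_⟩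
    intro B hB hlt hmB
    apply h3
    simp only [mem_iUnion]
    exact ⟨B, ⟨hB, hlt⟩, h1, hmB⟩
  · intro B hB
    have hfin : {A | A ∈ L ∧ f A ≤ f B}.Finite := by
      apply Set.Finite.of_finite_image (f := f)
      · exact (Set.finite_Iic (f B)).subset (by rintro _ ⟨A, hA, rfl⟩; exact hA.2)
      · intro A hA A' hA' h
        exact hf (Or.inl hA.1) (Or.inl hA'.1) h
    apply (hfin.biUnion (t := fun A => A ∩ B) (fun A hA =>
      h𝒜.2 A (hL hA.1) B (hR hB) (hne A hA.1 B hB))).subset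
    rintro m ⟨⟨A, hA, hmA, hA'⟩, hmB⟩
    simp only [mem_iUnion]
    refine ⟨A, ⟨hA, ?_⟩, hmA, hmB⟩
    by_contra hlt
    exact hA' B hB (not_le.1 hlt) hmB

/-- The Jones property. -/
def Jones (𝒜 : Set (Set ℕ)) : Prop :=
  ∀ L R : Set (Set ℕ), L ⊆ 𝒜 → R ⊆ 𝒜 → Disjoint L R → L.Infinite → L.Countable → #R = ℵ₁ →
    ∃ c : Set ℕ, (∀ A ∈ L, AlmostSub A c) ∧ ∀ B ∈ R, AlmostDisj c B

/-- The family is Jones. -/
theorem Sys.jones {W : Type} [LinearOrder W] (s : Sys W)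
    (hW : ∀ γ : W, (Set.Iio γ).Countable) (hb : ∀ S : Set W, S.Countable → ∃ γ, ∀ β ∈ S, β < γ) :
    Jones s.fam := by
  intro L R hL hR hLR _ hLc _
  have hpre : (s.a ⁻¹' L).Countable := hLc.preimage s.a_inj
  obtain ⟨α, hα⟩ := hb _ hpre
  have hR' : (R ∩ s.a '' (Set.Iio α)).Countable := ((hW α).image s.a).mono Set.inter_subset_right
  obtain ⟨D, hD1, hD2⟩ := sep_countable s.fam_AD hL (Set.inter_subset_left.trans hR)
    (hLR.mono_right Set.inter_subset_left) hLc hR'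
  refine ⟨s.C α ∩ D, ?_, ?_⟩
  · intro A hA
    obtain ⟨β, rfl⟩ := hL hA
    have h1 : AlmostSub (s.a β) (s.C α) := s.C_sub (hα β hA)
    have h2 := hD1 _ hA
    exact (h1.union h2).subset (by
      rintro m ⟨h3, h4⟩
      by_cases h5 : m ∈ s.C α
      · exact Or.inr ⟨h3, fun h6 => h4 ⟨h5, h6⟩⟩
      · exact Or.inl ⟨h3, h5⟩)
  · intro B hB
    obtain ⟨γ, rfl⟩ := hR hB
    rcases lt_or_ge γ α with h | h
    · exact (hD2 (s.a γ) ⟨hB, γ, h, rfl⟩).subset (by
        rintro m ⟨h1, h2⟩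
        exact ⟨h1.2, h2⟩)
    · exact (s.C_disj h).subset (by
        rintro m ⟨h1, h2⟩
        exact ⟨h1.1, h2⟩)

namespace Sys

variable {W : Type} [LinearOrder W] (s : Sys W)

open Classical in
/-- inverse of `e γ` -/
noncomputable def E (γ : W) (k : ℕ) : W :=
  if h : ∃ β, β < γ ∧ s.e γ β = k then h.choose else γ

theorem E_e {β γ : W} (h : β < γ) : s.E γ (s.e γ β) = β := by
  have hex : ∃ β', β' < γ ∧ s.e γ β' = s.e γ β := ⟨β, h, rfl⟩
  rw [E, dif_pos hex]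
  exact s.e_inj γ hex.choose_spec.1 h hex.choose_spec.2

/-- dichotomy along an ultrafilter -/
theorem dich (b : ℕ → W) :
    (∃ t, ∀ v, ∀ᶠ N in (hyperfilter ℕ : Filter ℕ), s.c (b N) v ≤ t) ∨
    (∀ l, ∀ᶠ v in atTop, ∀ᶠ N in (hyperfilter ℕ : Filter ℕ), l < s.c (b N) v) := by
  by_cases h : ∃ t, ∀ v, ∀ᶠ N in (hyperfilter ℕ : Filter ℕ), s.c (b N) v ≤ t
  · exact Or.inl h
  · right
    push Not at h
    intro l
    obtain ⟨v, hv⟩ := h l
    filter_upwards [eventually_ge_atTop v] with v' hv'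
    filter_upwards [hv] with N hN
    exact hN.trans_le (s.c_mono _ hv')

/-- along the ultrafilter the values `c (b N) v` are below `t` or large -/
def Good (b : ℕ → W) (t : ℕ) : Prop :=
  ∀ l, ∀ᶠ v in atTop, ∀ᶠ N in (hyperfilter ℕ : Filter ℕ), s.c (b N) v < t ∨ l < s.c (b N) v

theorem good (b : ℕ → W) : ∀ᶠ t in atTop, s.Good b t := by
  rcases s.dich b with ⟨t, ht⟩ | h
  · filter_upwards [eventually_gt_atTop t] with t' ht' l
    refine Eventually.of_forall fun v => ?_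
    filter_upwards [ht v] with N hN
    left
    omega
  · refine Eventually.of_forall fun t l => ?_
    filter_upwards [h l] with v hv
    filter_upwards [hv] with N hN
    exact Or.inr hN

/-- the same for `b N` and all the elements of `F v (b N)` -/
def Good2 (b : ℕ → W) (t : ℕ) : Prop :=
  ∀ l, ∀ᶠ v in atTop, ∀ᶠ N in (hyperfilter ℕ : Filter ℕ), ∀ β,
    (β = b N ∨ β ∈ s.F v (b N)) → s.c β v < t ∨ l < s.c β v

theorem good2 (b : ℕ → W) : ∀ᶠ t in atTop, s.Good2 b t := by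
  rcases s.dich b with ⟨u, hu⟩ | h
  · have h1 : ∀ᶠ t in atTop, ∀ j ∈ Finset.range u, s.Good (fun N => s.E (b N) j) t := by
      rw [eventually_all_finset]
      intro j _
      exact s.good _
    filter_upwards [h1, eventually_gt_atTop u] with t ht htu l
    have h2 : ∀ᶠ v in atTop, ∀ j ∈ Finset.range u, ∀ᶠ N in (hyperfilter ℕ : Filter ℕ),
        s.c (s.E (b N) j) v < t ∨ l < s.c (s.E (b N) j) v := by
      rw [eventually_all_finset]
      intro j hj
      exact ht j hj l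
    filter_upwards [h2] with v hv
    rw [← eventually_all_finset] at hv
    filter_upwards [hv, hu v] with N hN hN' β hβ
    rcases hβ with rfl | ⟨h3, h4⟩
    · left
      omega
    · have := hN (s.e (b N) β) (Finset.mem_range.2 (by omega))
      rwa [s.E_e h3] at this
  · refine Eventually.of_forall fun t l => ?_
    filter_upwards [h l] with v hv
    filter_upwards [hv] with N hN β hβ
    right
    rcases hβ with rfl | hβ
    · exact hN
    · exact hN.trans (s.F_lt hβ)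

/-- an uncountable set of indices branches infinitely at some node above level `i₀` -/
theorem lemS {L : Set W} (hL : ¬ L.Countable) (i₀ : ℕ) :
    ∃ k ≥ i₀, ∃ v, ∀ N, ∃ α ∈ L, s.x α k < v ∧ N ≤ s.x α (k + 1) := by
  by_contra hcon
  push Not at hcon
  choose! Nf hNf using hcon
  obtain ⟨K₀, hK₀⟩ : ∃ K₀, ¬ (L ∩ {α | s.x α i₀ = K₀}).Countable := by
    by_contra h
    push Not at h
    apply hL
    have hu : L = ⋃ K₀, (L ∩ {α | s.x α i₀ = K₀}) := by
      ext α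
      simp
    rw [hu]
    exact Set.countable_iUnion h
  let h : ℕ → ℕ := fun j => Nat.rec (K₀ + 1) (fun j y => Nf (i₀ + j) y) j
  have hh : ∀ j, ∀ α ∈ L ∩ {α | s.x α i₀ = K₀}, s.x α (i₀ + j) < h j := by
    intro j
    induction j with
    | zero =>
      intro α hα
      have h0 : s.x α i₀ = K₀ := hα.2
      change s.x α i₀ < K₀ + 1
      omega
    | succ j ih =>
      intro α hα
      exact hNf (i₀ + j) (by omega) (h j) α hα.1 (ih α hα)
  obtain ⟨α, hα, i, hi⟩ := s.unb _ hK₀ h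
  have h1 := hh i α hα
  have h2 := (s.x_mono α).monotone (show i ≤ i₀ + i by omega)
  omega

/-- the main lemma about uncountable sets of indices -/
theorem node {L : Set W} (hL : ¬ L.Countable) (i₀ : ℕ) :
    ∃ i ≥ i₀, ∃ t > i, ∀ l, ∀ᶠ v in atTop, ∃ α ∈ L, s.c α v = i ∧
      ∀ β ∈ s.U v α, i < s.c β v ∧ (s.c β v < t ∨ l < s.c β v) := by
  obtain ⟨k, hk, v₁, hv₁⟩ := s.lemS hL i₀
  choose α hαL hα1 hα2 using hv₁
  have h1 : ∀ᶠ t in atTop, ∀ j ∈ Finset.range (k + 1), s.Good2 (fun N => s.E (α N) j) t := by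
    rw [eventually_all_finset]
    intro j _
    exact s.good2 _
  obtain ⟨t, ht, htk⟩ := (h1.and (eventually_gt_atTop (k + 1))).exists
  refine ⟨k + 1, by omega, t, htk, fun l => ?_⟩
  have h2 : ∀ᶠ v in atTop, ∀ j ∈ Finset.range (k + 1), ∀ᶠ N in (hyperfilter ℕ : Filter ℕ),
      ∀ β, (β = s.E (α N) j ∨ β ∈ s.F v (s.E (α N) j)) → s.c β v < t ∨ l < s.c β v := by
    rw [eventually_all_finset]
    intro j hj
    exact ht j hj l
  filter_upwards [h2, eventually_ge_atTop v₁] with v hv hvv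
  rw [← eventually_all_finset] at hv
  have h3 : ∀ᶠ N in (hyperfilter ℕ : Filter ℕ), v ≤ N :=
    Nat.hyperfilter_le_atTop (eventually_ge_atTop v)
  obtain ⟨N, hN, hN'⟩ := (hv.and h3).exists
  have hc : s.c (α N) v = k + 1 := by
    apply le_antisymm
    · rw [c_le_iff]
      exact hN'.trans (hα2 N)
    · by_contra hlt
      have h4 : s.c (α N) v ≤ k := by omega
      rw [c_le_iff] at h4
      have h5 := hα1 N
      omega
  refine ⟨α N, hαL N, hc, fun β hβ => ⟨?_, ?_⟩⟩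
  · rw [← hc]
    exact s.U_lt hβ
  · rcases hβ with hβ | ⟨γ, hγ, hβ⟩
    · refine hN (s.e (α N) β) (Finset.mem_range.2 ?_) β (Or.inl (s.E_e hβ.1).symm)
      have := hβ.2
      omega
    · refine hN (s.e (α N) γ) (Finset.mem_range.2 ?_) β (Or.inr ?_)
      · have := hγ.2
        omega
      · rw [s.E_e hγ.1]
        exact hβ

/-- one point common to `n` sets with indices in prescribed uncountable sets -/
theorem chain (Λ : ℕ → Set W) (hΛ : ∀ l, ¬ (Λ l).Countable) (n M : ℕ) :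
    ∃ (v : ℕ) (k : Finset ℕ), M ≤ v ∧ ∀ l < n, ∃ α ∈ Λ l, φ (v, k) ∈ s.a α := by
  choose f hf1 t hft ht using fun (l i₀ : ℕ) => s.node (hΛ l) i₀
  let J : ℕ → ℕ := fun l => Nat.rec 0 (fun l y => t l y) l
  let i : ℕ → ℕ := fun l => f l (J l)
  have hi1 : ∀ l, J l ≤ i l := fun l => hf1 l (J l)
  have hi2 : ∀ l, i l < J (l + 1) := fun l => hft l (J l)
  have hmono : StrictMono i := strictMono_nat_of_lt_succ fun l => lt_of_lt_of_le (hi2 l) (hi1 (l + 1))
  have hJmono : Monotone J := monotone_nat_of_le_succ fun l => le_trans (hi1 l) (hi2 l).le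
  have h : ∀ᶠ v in atTop, ∀ l ∈ Finset.range n, ∃ α ∈ Λ l, s.c α v = i l ∧
      ∀ β ∈ s.U v α, i l < s.c β v ∧ (s.c β v < J (l + 1) ∨ i n < s.c β v) := by
    rw [eventually_all_finset]
    intro l _
    exact ht l (J l) (i n)
  obtain ⟨v, hv, hvM⟩ := (h.and (eventually_ge_atTop M)).exists
  refine ⟨v, (Finset.range n).image i, hvM, ?_⟩
  intro l hl
  obtain ⟨α, hα, hc, hU⟩ := hv l (Finset.mem_range.2 hl)
  refine ⟨α, hα, (s.mem_a_iff).2 ⟨?_, ?_, ?_⟩⟩
  · intro y hy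
    obtain ⟨l', hl', rfl⟩ := Finset.mem_image.1 hy
    obtain ⟨α', _, hc', _⟩ := hv l' hl'
    rw [← hc', Finset.mem_range]
    have := s.c_le α' v
    omega
  · rw [hc]
    exact Finset.mem_image_of_mem _ (Finset.mem_range.2 hl)
  · intro β hβ hmem
    obtain ⟨l', hl', hlc⟩ := Finset.mem_image.1 hmem
    obtain ⟨h1, h2⟩ := hU β hβ
    rw [← hlc] at h1 h2
    have hll : l < l' := hmono.lt_iff_lt.1 h1
    rcases h2 with h2 | h2
    · have h3 := hJmono (show l + 1 ≤ l' from hll)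
      have h4 := hi1 l'
      omega
    · have h3 := hmono (Finset.mem_range.1 hl')
      omega

end Sys

/-- Separation of a tuple of families (Aviles and Todorcevic): each member of `L i` is almost
contained in `c i`, and the sets `c i` have finite intersection. -/
def SepAT {n : ℕ} (L : Fin n → Set (Set ℕ)) : Prop :=
  ∃ c : Fin n → Set ℕ, (∀ i, ∀ A ∈ L i, AlmostSub A (c i)) ∧ (⋂ i, c i).Finite

/-- Separation of a tuple of families, as written in the problem file. -/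
def SepPF {n : ℕ} (L : Fin n → Set (Set ℕ)) : Prop :=
  ∃ c : Fin n → Set ℕ, ∀ i, (∀ A ∈ L i, AlmostSub A (c i)) ∧
    ∀ j, j ≠ i → ∀ B ∈ L j, AlmostDisj (c i) B

/-- `n`-inseparable with respect to `SepAT`. -/
def InsepAT (n : ℕ) (𝒜 : Set (Set ℕ)) : Prop :=
  ∀ L : Fin n → Set (Set ℕ), (∀ i, L i ⊆ 𝒜 ∧ #(L i) = ℵ₁) →
    (∀ i j, i ≠ j → Disjoint (L i) (L j)) → ¬ SepAT L

/-- `n`-inseparable with respect to `SepPF`. -/
def InsepPF (n : ℕ) (𝒜 : Set (Set ℕ)) : Prop :=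
  ∀ L : Fin n → Set (Set ℕ), (∀ i, L i ⊆ 𝒜 ∧ #(L i) = ℵ₁) →
    (∀ i j, i ≠ j → Disjoint (L i) (L j)) → ¬ SepPF L

theorem insepPF_of_insepAT {𝒜 : Set (Set ℕ)} (h : InsepAT 2 𝒜) {n : ℕ} (hn : 2 ≤ n) :
    InsepPF n 𝒜 := by
  rintro L hL hd ⟨c, hc⟩
  let i0 : Fin n := ⟨0, by omega⟩
  let i1 : Fin n := ⟨1, by omega⟩
  have h01 : i0 ≠ i1 := by
    intro hh
    have := congrArg Fin.val hh
    simp [i0, i1] at this
  apply h ![L i0, L i1]
  · intro i
    fin_cases i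
    · exact hL i0
    · exact hL i1
  · intro i j hij
    fin_cases i <;> fin_cases j
    · exact absurd rfl hij
    · exact hd i0 i1 h01
    · exact hd i1 i0 h01.symm
    · exact absurd rfl hij
  · refine ⟨![c i0, (c i0)ᶜ], ?_, ?_⟩
    · intro i
      fin_cases i
      · exact (hc i0).1
      · intro A hA
        have h1 := (hc i0).2 i1 h01.symm A hA
        refine Set.Finite.subset h1 ?_
        rintro m ⟨h2, h3⟩
        exact ⟨not_not.1 h3, h2⟩
    · have hE : (⋂ i, (![c i0, (c i0)ᶜ] : Fin 2 → Set ℕ) i) = ∅ := by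
        ext m
        simp only [mem_iInter, mem_empty_iff_false, iff_false]
        intro hm
        exact hm 1 (hm 0)
      rw [hE]
      exact Set.finite_empty

/-- The family is `n`-inseparable for every `n`. -/
theorem Sys.insep {W : Type} [LinearOrder W] (s : Sys W) (n : ℕ) : InsepAT n s.fam := by
  rintro L hL - ⟨c, hc1, hc2⟩
  have hunc : ∀ l : Fin n, ∃ M : ℕ,
      ¬ {γ | s.a γ ∈ L l ∧ ∀ p ∈ s.a γ, M ≤ V p → p ∈ c l}.Countable := by
    intro l
    by_contra hcon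
    push Not at hcon
    have hct : (L l).Countable := by
      have hsub : L l ⊆ s.a '' (⋃ M, {γ | s.a γ ∈ L l ∧ ∀ p ∈ s.a γ, M ≤ V p → p ∈ c l}) := by
        intro A hA
        obtain ⟨γ, rfl⟩ := (hL l).1 hA
        have hfin := hc1 l _ hA
        obtain ⟨M, hM⟩ := (hfin.image V).bddAbove
        refine ⟨γ, ?_, rfl⟩
        rw [mem_iUnion]
        refine ⟨M + 1, hA, fun p hp hMp => ?_⟩
        by_contra hpc
        have := hM ⟨p, ⟨hp, hpc⟩, rfl⟩
        omega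
      exact ((Set.countable_iUnion hcon).image _).mono hsub
    rw [← Cardinal.le_aleph0_iff_set_countable, (hL l).2] at hct
    exact absurd hct (not_le.2 Cardinal.aleph0_lt_aleph_one)
  choose M hM using hunc
  obtain ⟨M', hM'⟩ := (hc2.image V).bddAbove
  rcases Nat.eq_zero_or_pos n with rfl | hn
  · apply Set.infinite_univ (α := ℕ)
    refine Set.Finite.subset hc2 ?_
    intro m _
    rw [mem_iInter]
    intro i
    exact i.elim0
  · obtain ⟨v, k, hv, hvk⟩ := s.chain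
      (fun l => {γ | s.a γ ∈ L ⟨l % n, Nat.mod_lt _ hn⟩ ∧
        ∀ p ∈ s.a γ, M ⟨l % n, Nat.mod_lt _ hn⟩ ≤ V p → p ∈ c ⟨l % n, Nat.mod_lt _ hn⟩})
      (fun l => hM _) n (M' + 1 + Finset.univ.sup M)
    have hVp : V (φ (v, k)) = v := by simp [V]
    have hmem : φ (v, k) ∈ ⋂ i, c i := by
      rw [mem_iInter]
      intro l
      obtain ⟨α, hα, hp⟩ := hvk l l.2
      have hl : (⟨(l : ℕ) % n, Nat.mod_lt _ hn⟩ : Fin n) = l := Fin.ext (Nat.mod_eq_of_lt l.2)
      have h2 := hα.2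
      rw [hl] at h2
      apply h2 _ hp
      rw [hVp]
      have := Finset.le_sup (f := M) (Finset.mem_univ l)
      omega
    have := hM' ⟨_, hmem, rfl⟩
    rw [hVp] at this
    omega

/-- well-founded recursion with choice -/
theorem exists_rec {W X : Type} [LinearOrder W] [WellFoundedLT W]
    (R : ∀ γ : W, ((β : W) → β < γ → X) → X → Prop) (h : ∀ γ f, ∃ y, R γ f y) :
    ∃ x : W → X, ∀ γ, R γ (fun β _ => x β) (x γ) := by
  choose g hg using h
  have wf : WellFounded (fun a b : W => a < b) := wellFounded_lt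
  refine ⟨wf.fix g, fun γ => ?_⟩
  rw [wf.fix_eq]
  exact hg γ _

/-- one step of the recursion -/
theorem step {W : Type} [LinearOrder W] (γ : W) (e : W → ℕ) (he : InjOn e (Iio γ)) (z : ℕ → ℕ)
    (f : (β : W) → β < γ → (ℕ → ℕ)) :
    ∃ y : ℕ → ℕ, StrictMono y ∧ (∀ i, z i ≤ y i) ∧
      ∀ β (h : β < γ) i, e β ≤ i → f β h (i + 1) ≤ y i := by
  classical
  have hB : ∀ i, ∃ B, ∀ β (h : β < γ), e β ≤ i → f β h (i + 1) ≤ B := by
    intro i
    have hfin : {β | β < γ ∧ e β ≤ i}.Finite := by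
      apply Set.Finite.of_finite_image (f := e)
      · exact (Set.finite_Iic i).subset (by rintro _ ⟨A, hA, rfl⟩; exact hA.2)
      · intro A hA A' hA' h
        exact he hA.1 hA'.1 h
    obtain ⟨B, hB⟩ := (hfin.image
      (fun β => if h : β < γ then f β h (i + 1) else 0)).bddAbove
    refine ⟨B, fun β h hi => ?_⟩
    have h2 := hB ⟨β, ⟨h, hi⟩, rfl⟩
    simpa [h] using h2
  choose B hB using hB
  refine ⟨fun i => ∑ j ∈ Finset.range (i + 1), (B j + z j + 1), ?_, ?_, ?_⟩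
  · apply strictMono_nat_of_lt_succ
    intro i
    rw [Finset.sum_range_succ _ (i + 1)]
    omega
  · intro i
    beta_reduce
    rw [Finset.sum_range_succ]
    omega
  · intro β h i hi
    beta_reduce
    rw [Finset.sum_range_succ]
    have := hB i β h hi
    omega

/-- Existence of a system. -/
theorem exists_sys {W : Type} [LinearOrder W] [WellFoundedLT W]
    (hW : ∀ γ : W, (Set.Iio γ).Countable) (z : W → ℕ → ℕ)
    (hz : ¬ ∃ g : ℕ → ℕ, ∀ w, ∀ᶠ m in atTop, z w m ≤ g m) : Nonempty (Sys W) := by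
  have he : ∀ γ : W, ∃ f : W → ℕ, InjOn f (Iio γ) := fun γ =>
    Set.countable_iff_exists_injOn.1 (hW γ)
  choose e he using he
  obtain ⟨x, hx⟩ := exists_rec (W := W) (X := ℕ → ℕ)
    (fun γ f y => StrictMono y ∧ (∀ i, z γ i ≤ y i) ∧
      ∀ β (h : β < γ) i, e γ β ≤ i → f β h (i + 1) ≤ y i)
    (fun γ f => step γ (e γ) (he γ) (z γ) f)
  refine ⟨⟨x, e, fun γ => (hx γ).1, he, fun β γ i h h' => (hx γ).2.2 β h i h', ?_⟩⟩
  intro S hS h
  by_contra hcon
  push Not at hcon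
  apply hz
  refine ⟨h, fun w => ?_⟩
  have hex : ∃ γ ∈ S, w < γ := by
    by_contra hc
    push Not at hc
    apply hS
    have h1 : (Set.Iic w).Countable := by
      rw [← Set.Iio_insert]
      exact (hW w).insert w
    exact h1.mono hc
  obtain ⟨γ, hγ, hwγ⟩ := hex
  filter_upwards [eventually_ge_atTop (e γ w)] with m hm
  calc z w m ≤ x w m := (hx w).2.1 m
    _ ≤ x w (m + 1) := (hx w).1.monotone (Nat.le_succ m)
    _ ≤ x γ m := (hx γ).2.2 w hwγ m hm
    _ ≤ h m := hcon γ hγ m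

/-- The case `𝔟 = ω₁`: an uncountable AD family which is Jones and `n`-inseparable for all `n`. -/
theorem main_case (F : Set (ℕ → ℕ)) (hF : #F ≤ ℵ₁)
    (hF' : ¬ ∃ g : ℕ → ℕ, ∀ f ∈ F, ∀ᶠ m in atTop, f m ≤ g m) :
    ∃ 𝒜 : Set (Set ℕ), ¬ 𝒜.Countable ∧ IsAD 𝒜 ∧
      (∀ n, 2 ≤ n → InsepAT n 𝒜 ∧ InsepPF n 𝒜) ∧ Jones 𝒜 := by
  let W : Type := (ℵ₁ : Cardinal.{0}).ord.ToType
  have hcard : #W = ℵ₁ := Cardinal.mk_ord_toType _
  have hW : ∀ γ : W, (Set.Iio γ).Countable := by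
    intro γ
    rw [← Cardinal.le_aleph0_iff_set_countable, ← Cardinal.lt_aleph_one_iff]
    refine lt_of_lt_of_eq (Cardinal.mk_Iio_lt γ ?_) hcard
    rw [hcard]
    exact (Ordinal.type_toType _).symm
  have huniv : ¬ (Set.univ : Set W).Countable := by
    rw [← Cardinal.le_aleph0_iff_set_countable, Cardinal.mk_univ, hcard]
    exact not_le.2 Cardinal.aleph0_lt_aleph_one
  have hb : ∀ S : Set W, S.Countable → ∃ γ, ∀ β ∈ S, β < γ := by
    intro S hS
    by_contra hcon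
    push Not at hcon
    apply huniv
    have h1 : (⋃ β ∈ S, Set.Iic β).Countable := by
      apply hS.biUnion
      intro β _
      rw [← Set.Iio_insert]
      exact (hW β).insert β
    apply h1.mono
    intro γ _
    obtain ⟨β, hβ, hle⟩ := hcon γ
    simp only [mem_iUnion]
    exact ⟨β, hβ, hle⟩
  have hne : Nonempty F := by
    by_contra h
    rw [not_nonempty_iff] at h
    apply hF'
    exact ⟨fun _ => 0, fun f hf => (h.false ⟨f, hf⟩).elim⟩
  rw [← hcard] at hF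
  obtain ⟨j⟩ := hF
  have hz : ¬ ∃ g : ℕ → ℕ, ∀ w : W, ∀ᶠ m in atTop,
      ((Function.invFun j w : F) : ℕ → ℕ) m ≤ g m := by
    rintro ⟨g, hg⟩
    apply hF'
    refine ⟨g, fun f hf => ?_⟩
    have h1 := hg (j ⟨f, hf⟩)
    rwa [Function.leftInverse_invFun j.injective] at h1
  obtain ⟨s⟩ := exists_sys hW _ hz
  refine ⟨s.fam, ?_, s.fam_AD, ?_, s.jones hW hb⟩
  · intro hct
    apply huniv
    have h1 := hct.preimage s.a_inj
    refine h1.mono ?_
    intro γ _
    exact ⟨γ, rfl⟩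
  · intro n hn
    exact ⟨s.insep n, insepPF_of_insepAT (s.insep 2) hn⟩

/-- The case `𝔟 > ω₁`: every AD family is Jones. -/
theorem other_case
    (hF : ∀ F : Set (ℕ → ℕ), #F ≤ ℵ₁ → ∃ g : ℕ → ℕ, ∀ f ∈ F, ∀ᶠ m in atTop, f m ≤ g m)
    {𝒜 : Set (Set ℕ)} (h𝒜 : IsAD 𝒜) : Jones 𝒜 := by
  intro L R hL hR hLR hLi hLc hRc
  obtain ⟨l, hl⟩ := hLc.exists_eq_range hLi.nonempty
  have hlL : ∀ i, l i ∈ L := fun i => by rw [hl]; exact ⟨i, rfl⟩
  have hfin : ∀ r ∈ R, ∀ i, (l i ∩ r).Finite := by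
    intro r hr i
    apply h𝒜.2 _ (hL (hlL i)) r (hR hr)
    intro h
    exact Set.disjoint_left.1 hLR (hlL i) (h ▸ hr)
  have hg : ∀ r : R, ∃ g : ℕ → ℕ, ∀ i, ∀ m ∈ l i ∩ r, m < g i := by
    intro r
    have h1 : ∀ i, ∃ y, ∀ m ∈ l i ∩ r, m < y := by
      intro i
      obtain ⟨M, hM⟩ := (hfin r r.2 i).bddAbove
      exact ⟨M + 1, fun m hm => Nat.lt_succ_of_le (hM hm)⟩
    choose g hg using h1
    exact ⟨g, hg⟩
  choose g hg using hg
  obtain ⟨G, hG⟩ := hF (Set.range g) (Cardinal.mk_range_le.trans hRc.le)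
  refine ⟨{m | ∃ i, m ∈ l i ∧ G i ≤ m}, ?_, ?_⟩
  · intro A hA
    rw [hl] at hA
    obtain ⟨i, rfl⟩ := hA
    apply (Set.finite_Iio (G i)).subset
    rintro m ⟨h1, h2⟩
    rw [Set.mem_Iio]
    by_contra h3
    exact h2 ⟨i, h1, not_lt.1 h3⟩
  · intro r hr
    obtain ⟨N, hN⟩ := eventually_atTop.1 (hG _ ⟨⟨r, hr⟩, rfl⟩)
    apply ((Set.finite_Iio N).biUnion (t := fun i => l i ∩ r) (fun i _ => hfin r hr i)).subset
    rintro m ⟨⟨i, h1, h2⟩, h3⟩
    simp only [mem_iUnion]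
    refine ⟨i, ?_, h1, h3⟩
    rw [Set.mem_Iio]
    by_contra h4
    have h5 := hN i (not_lt.1 h4)
    have h6 := hg ⟨r, hr⟩ i m ⟨h1, h3⟩
    omega

/-- **Q1, positive answer**, for every `n ≥ 2`, with both readings of separation: if there is an
uncountable `n`-inseparable AD family, then there is an uncountable AD family which is both
`n`-inseparable and Jones. -/
theorem result (n : ℕ) (hn : 2 ≤ n) :
    ((∃ 𝒜 : Set (Set ℕ), ¬ 𝒜.Countable ∧ IsAD 𝒜 ∧ InsepAT n 𝒜) →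
      ∃ 𝒜 : Set (Set ℕ), ¬ 𝒜.Countable ∧ IsAD 𝒜 ∧ InsepAT n 𝒜 ∧ Jones 𝒜) ∧
    ((∃ 𝒜 : Set (Set ℕ), ¬ 𝒜.Countable ∧ IsAD 𝒜 ∧ InsepPF n 𝒜) →
      ∃ 𝒜 : Set (Set ℕ), ¬ 𝒜.Countable ∧ IsAD 𝒜 ∧ InsepPF n 𝒜 ∧ Jones 𝒜) := by
  by_cases hF : ∃ F : Set (ℕ → ℕ), #F ≤ ℵ₁ ∧
      ¬ ∃ g : ℕ → ℕ, ∀ f ∈ F, ∀ᶠ m in atTop, f m ≤ g m
  · obtain ⟨F, hF1, hF2⟩ := hF
    obtain ⟨ℬ, h4, h5, h6, h7⟩ := main_case F hF1 hF2
    exact ⟨fun _ => ⟨ℬ, h4, h5, (h6 n hn).1, h7⟩, fun _ => ⟨ℬ, h4, h5, (h6 n hn).2, h7⟩⟩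
  · push Not at hF
    refine ⟨?_, ?_⟩
    · rintro ⟨𝒜, h1, h2, h3⟩
      exact ⟨𝒜, h1, h2, h3, other_case hF h2⟩
    · rintro ⟨𝒜, h1, h2, h3⟩
      exact ⟨𝒜, h1, h2, h3, other_case hF h2⟩

end Pool.Agent.Results.MP_db1bd0_lc.JonesInseparable
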